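import Pool.Agent.N821.CS.Stm

set_option autoImplicit false

namespace Pool.Agent.N764.CS.LIM

open Pool.Agent.N821.CS
open scoped NNReal Topology
open Filter

universe u

theorem t : S_LIM.{u} := by
  intro H _ _ _ x hx V hV hC
  -- uniform Cauchy property for every vector
  have hU : ∀ (y : H) (N : ℕ) (ε : ℝ), 0 < ε → ∃ k₀, ∀ k ≥ k₀, ∀ l ≥ k₀, ∀ t : ℝ≥0, t ≤ N →
      ‖(V k).op t y - (V l).op t y‖ < ε := by
    intro y N ε hε
    obtain ⟨i, hi⟩ := hx.exists_dist_lt y (show (0 : ℝ) < ε / 3 by positivity)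
    obtain ⟨k₀, hk₀⟩ := hC (max N (i + 1)) (ε / 3) (by positivity)
    refine ⟨k₀, fun k hk l hl t ht => ?_⟩
    have h1 := hk₀ k hk l hl i (lt_of_lt_of_le (Nat.lt_succ_self i) (le_max_right _ _)) t
      (ht.trans (by exact_mod_cast le_max_left N (i + 1)))
    have h2 : ‖(V k).op t (y - x i)‖ < ε / 3 := by
      rw [hV k t]; rwa [dist_eq_norm] at hi
    have h3 : ‖(V l).op t (x i - y)‖ < ε / 3 := by
      rw [hV l t, norm_sub_rev]; rwa [dist_eq_norm] at hi
    have e : (V k).op t y - (V l).op t y = (V k).op t (y - x i) +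
        ((V k).op t (x i) - (V l).op t (x i)) + (V l).op t (x i - y) := by
      rw [map_sub, map_sub]; abel
    rw [e]
    calc _ ≤ ‖(V k).op t (y - x i) + ((V k).op t (x i) - (V l).op t (x i))‖ +
          ‖(V l).op t (x i - y)‖ := norm_add_le _ _
      _ ≤ ‖(V k).op t (y - x i)‖ + ‖(V k).op t (x i) - (V l).op t (x i)‖ +
          ‖(V l).op t (x i - y)‖ := by gcongr; exact norm_add_le _ _
      _ < ε := by linarith
  have hCau : ∀ (t : ℝ≥0) (y : H), CauchySeq (fun k => (V k).op t y) := by
    intro t y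
    obtain ⟨N, hN⟩ := exists_nat_ge t
    rw [Metric.cauchySeq_iff]
    intro ε hε
    obtain ⟨k₀, hk₀⟩ := hU y N ε hε
    exact ⟨k₀, fun m hm n hn => by rw [dist_eq_norm]; exact hk₀ m hm n hn t hN⟩
  choose W hW using fun (t : ℝ≥0) (y : H) => cauchySeq_tendsto_of_complete (hCau t y)
  have hnorm : ∀ t y, ‖W t y‖ = ‖y‖ := by
    intro t y
    have h1 := (hW t y).norm
    have h2 : (fun k => ‖(V k).op t y‖) = fun _ => ‖y‖ := by
      funext k; exact hV k t y
    rw [h2] at h1
    exact tendsto_nhds_unique h1 tendsto_const_nhds |>.symm ▸ rfl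
  have hadd : ∀ t y z, W t (y + z) = W t y + W t z := by
    intro t y z
    have h1 := hW t (y + z)
    simp only [map_add] at h1
    exact tendsto_nhds_unique h1 ((hW t y).add (hW t z))
  have hsmul : ∀ t (c : ℂ) y, W t (c • y) = c • W t y := by
    intro t c y
    have h1 := hW t (c • y)
    simp only [map_smul] at h1
    exact tendsto_nhds_unique h1 ((hW t y).const_smul c)
  have hunif : ∀ (y : H) (N : ℕ) (ε : ℝ), 0 < ε → ∃ k₀, ∀ k ≥ k₀, ∀ t : ℝ≥0, t ≤ N →
      ‖(V k).op t y - W t y‖ < ε := by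
    intro y N ε hε
    obtain ⟨k₀, hk₀⟩ := hU y N (ε / 2) (by positivity)
    refine ⟨k₀, fun k hk t ht => ?_⟩
    have h1 : Tendsto (fun l => ‖(V k).op t y - (V l).op t y‖) atTop
        (𝓝 ‖(V k).op t y - W t y‖) := ((hW t y).const_sub ((V k).op t y)).norm
    have h2 : ‖(V k).op t y - W t y‖ ≤ ε / 2 :=
      le_of_tendsto h1 (eventually_atTop.2 ⟨k₀, fun l hl => (hk₀ k hk l hl t ht).le⟩)
    linarith
  let Wop : ℝ≥0 → (H →L[ℂ] H) := fun t =>
    LinearMap.mkContinuous
      { toFun := W t
        map_add' := hadd t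
        map_smul' := hsmul t } 1 (fun y => by
          show ‖W t y‖ ≤ 1 * ‖y‖
          rw [hnorm, one_mul])
  have hWop : ∀ t y, Wop t y = W t y := fun t y => rfl
  have hcont : ∀ y, Continuous fun t => W t y := by
    intro y
    have h : TendstoLocallyUniformly (fun k t => (V k).op t y) (fun t => W t y) atTop := by
      rw [Metric.tendstoLocallyUniformly_iff]
      intro ε hε t
      obtain ⟨N, hN⟩ := exists_nat_gt t
      refine ⟨Set.Iio (N : ℝ≥0), Iio_mem_nhds hN, ?_⟩
      obtain ⟨k₀, hk₀⟩ := hunif y N ε hε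
      refine eventually_atTop.2 ⟨k₀, fun k hk s hs => ?_⟩
      rw [dist_comm, dist_eq_norm]
      exact hk₀ k hk s (le_of_lt hs)
    exact h.continuous (Frequently.of_forall fun k => (V k).cont y)
  have hsg : ∀ s t y, W (s + t) y = W s (W t y) := by
    intro s t y
    have h1 := hW (s + t) y
    have h2 : (fun k => (V k).op (s + t) y) =
        fun k => (V k).op s ((V k).op t y - W t y) + (V k).op s (W t y) := by
      funext k
      rw [(V k).add, map_sub]
      simp
    rw [h2] at h1
    have h3 : Tendsto (fun k => (V k).op s ((V k).op t y - W t y)) atTop (𝓝 0) := by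
      rw [tendsto_zero_iff_norm_tendsto_zero]
      have h4 : (fun k => ‖(V k).op s ((V k).op t y - W t y)‖) =
          fun k => ‖(V k).op t y - W t y‖ := by
        funext k; exact hV k s _
      rw [h4]
      exact tendsto_iff_norm_sub_tendsto_zero.1 (hW t y)
    have h5 := h3.add (hW s (W t y))
    rw [zero_add] at h5
    exact tendsto_nhds_unique h1 h5
  refine ⟨{ op := Wop
            zero := ?_
            add := ?_
            cont := ?_
            norm_le := ?_ }, ?_, ?_⟩
  · ext y
    rw [hWop]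
    have h1 := hW 0 y
    have h2 : (fun k => (V k).op 0 y) = fun _ => y := by
      funext k; rw [(V k).zero]; rfl
    rw [h2] at h1
    exact (tendsto_nhds_unique h1 tendsto_const_nhds)
  · intro s t
    ext y
    exact hsg s t y
  · intro y
    exact hcont y
  · intro t
    exact LinearMap.mkContinuous_norm_le _ zero_le_one _
  · intro t y
    exact hnorm t y
  · intro N ε hε
    have h1 : ∀ i : ℕ, ∃ k₀, ∀ k ≥ k₀, ∀ t : ℝ≥0, t ≤ N →
        ‖(V k).op t (x i) - W t (x i)‖ < ε := fun i => hunif (x i) N ε hε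
    choose f hf using h1
    refine ⟨(Finset.range N).sup f, fun k hk i hi t ht => ?_⟩
    exact hf i k ((Finset.le_sup (f := f) (Finset.mem_range.2 hi)).trans hk) t ht

end Pool.Agent.N764.CS.LIM
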